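import Mathlib
import Pool.Agent.Lib.helper22.AR

namespace Pool.Agent.H.MP_b13100_lc

open Monoid Monoid.CoprodI Pool.Agent.Lib.AR Pool.Agent.Lib.helper21.PR
open scoped commutatorElement

/-- two commuting normal subgroups: one of them is trivial -/
def Pm (P : Type) [Group P] : Prop :=
  ∀ M N : Subgroup P, M.Normal → N.Normal → (∀ a ∈ M, ∀ b ∈ N, Commute a b) → M = ⊥ ∨ N = ⊥

section
variable {K : Type} [Group K] [Nontrivial K]

theorem wrap {M : Subgroup (CoprodI fun _ : Fin 3 => K)} (hM : M.Normal) {a b k : Fin 3}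
    (w : NeWord (fun _ : Fin 3 => K) a b) (hw : w.prod ∈ M) (ha : k ≠ a) (hb : b ≠ k) :
    ∃ w : NeWord (fun _ : Fin 3 => K) k k, w.prod ∈ M := by
  obtain ⟨c, hc⟩ := exists_ne (1 : K)
  refine ⟨.append (.append (.singleton c hc) ha w) hb (.singleton c⁻¹ (inv_ne_one.2 hc)), ?_⟩
  simpa using hM.conj_mem _ hw (of (i := k) c)

theorem ends {M : Subgroup (CoprodI fun _ : Fin 3 => K)} (hM : M.Normal) (h : M ≠ ⊥) (i : Fin 3) :
    ∃ w : NeWord (fun _ : Fin 3 => K) i i, w.prod ∈ M := by
  classical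
  obtain ⟨⟨m, hm⟩, h1⟩ := Subgroup.ne_bot_iff_exists_ne_one.1 h
  have hne : Word.equiv m ≠ Word.empty := by
    intro e
    apply h1
    have := congrArg Word.equiv.symm e
    rw [Equiv.symm_apply_apply] at this
    exact Subtype.ext this
  obtain ⟨a, b, w, hw⟩ := NeWord.of_word _ hne
  have hp : w.prod = m := by
    rw [NeWord.prod, hw]
    exact Word.equiv.symm_apply_apply m
  obtain ⟨k, hka, hkb⟩ : ∃ k : Fin 3, k ≠ a ∧ b ≠ k :=
    (by decide : ∀ a b : Fin 3, ∃ k : Fin 3, k ≠ a ∧ b ≠ k) a b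
  obtain ⟨w', hw'⟩ := wrap hM w (hp ▸ hm) hka hkb
  by_cases hk : k = i
  · exact hk ▸ ⟨w', hw'⟩
  · exact wrap hM w' hw' (Ne.symm hk) hk

theorem pm_coprod : Pm (CoprodI fun _ : Fin 3 => K) := by
  classical
  intro M N hM hN h
  by_contra hc
  rw [not_or] at hc
  obtain ⟨u, hu⟩ := ends hM hc.1 0
  obtain ⟨v, hv⟩ := ends hN hc.2 1
  have e : (NeWord.append u (by decide) v).toWord = (NeWord.append v (by decide) u).toWord := by
    apply Word.equiv.symm.injective
    change (NeWord.append u _ v).prod = (NeWord.append v _ u).prod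
    rw [NeWord.append_prod, NeWord.append_prod]
    exact h _ hu _ hv
  have e2 : (NeWord.append u (by decide) v).toList = (NeWord.append v (by decide) u).toList :=
    congrArg Word.toList e
  have := congrArg List.head? e2
  rw [NeWord.toList_head?, NeWord.toList_head?] at this
  have := congrArg (Option.map Sigma.fst) this
  simp at this

end

section
variable {P : Type} [Group P]

theorem types [Nontrivial P] (hP : Pm P) (β : MulAut (P × P)) :
    ((∀ p, (β (p, 1)).2 = 1) ∧ ∀ p, (β (1, p)).1 = 1) ∨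
      ((∀ p, (β (p, 1)).1 = 1) ∧ ∀ p, (β (1, p)).2 = 1) := by
  obtain ⟨c, hc⟩ := exists_ne (1 : P)
  have nrm : ∀ (π : P × P →* P) (ι : P →* P × P), Function.Surjective π → ι.range.Normal →
      ((π.comp β.toMonoidHom).comp ι).range.Normal := by
    intro π ι hπ hι
    rw [MonoidHom.range_comp]
    exact hι.map _ (hπ.comp β.surjective)
  have n1 : (MonoidHom.inl P P).range.Normal := by
    refine ⟨?_⟩
    rintro _ ⟨p, rfl⟩ g
    exact ⟨g.1 * p * g.1⁻¹, Prod.ext (by simp) (by simp)⟩
  have n2 : (MonoidHom.inr P P).range.Normal := by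
    refine ⟨?_⟩
    rintro _ ⟨p, rfl⟩ g
    exact ⟨g.2 * p * g.2⁻¹, Prod.ext (by simp) (by simp)⟩
  have key : ∀ π : P × P →* P, Function.Surjective π →
      (∀ p, π (β (p, 1)) = 1) ∨ ∀ p, π (β (1, p)) = 1 := by
    intro π hπ
    rcases hP _ _ (nrm π _ hπ n1) (nrm π _ hπ n2) (by
      rintro _ ⟨p, rfl⟩ _ ⟨q, rfl⟩
      exact (MonoidHom.commute_inl_inr p q).map (π.comp β.toMonoidHom)) with h | h
    · exact Or.inl fun p => (Subgroup.eq_bot_iff_forall _).1 h _ ⟨p, rfl⟩
    · exact Or.inr fun p => (Subgroup.eq_bot_iff_forall _).1 h _ ⟨p, rfl⟩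
  rcases key (MonoidHom.fst P P) Prod.fst_surjective with h1 | h1 <;>
    rcases key (MonoidHom.snd P P) Prod.snd_surjective with h2 | h2
  · have : β (c, 1) = 1 := Prod.ext (h1 c) (h2 c)
    simp [hc] at this
  · exact Or.inr ⟨h1, h2⟩
  · exact Or.inl ⟨h2, h1⟩
  · have : β (1, c) = 1 := Prod.ext (h1 c) (h2 c)
    simp [hc] at this

open Classical in
noncomputable def sgn [Nontrivial P] (hP : Pm P) : MulAut (P × P) →* ℤˣ :=
  MonoidHom.mk' (fun β => if ∀ p, (β (p, 1)).2 = 1 then 1 else -1) (by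
    obtain ⟨c, hc⟩ := exists_ne (1 : P)
    have ex : ∀ β : MulAut (P × P), (∀ p, (β (p, 1)).1 = 1) → ¬ ∀ p, (β (p, 1)).2 = 1 := by
      intro β h1 h2
      have : β (c, 1) = 1 := Prod.ext (h1 c) (h2 c)
      simp [hc] at this
    intro α β
    rcases types hP α with ⟨a1, a2⟩ | ⟨a1, a2⟩ <;> rcases types hP β with ⟨b1, b2⟩ | ⟨b1, b2⟩
    · rw [if_pos a1, if_pos b1, if_pos]
      · simp
      · intro p
        rw [MulAut.mul_apply, show β (p, 1) = ((β (p, 1)).1, 1) from Prod.ext rfl (b1 p)]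
        exact a1 _
    · rw [if_pos a1, if_neg (ex β b1), if_neg (ex _ _)]
      · simp
      · intro p
        rw [MulAut.mul_apply, show β (p, 1) = (1, (β (p, 1)).2) from Prod.ext (b1 p) rfl]
        exact a2 _
    · rw [if_neg (ex α a1), if_pos b1, if_neg (ex _ _)]
      · simp
      · intro p
        rw [MulAut.mul_apply, show β (p, 1) = ((β (p, 1)).1, 1) from Prod.ext rfl (b1 p)]
        exact a1 _
    · rw [if_neg (ex α a1), if_neg (ex β b1), if_pos]
      · simp
      · intro p
        rw [MulAut.mul_apply, show β (p, 1) = (1, (β (p, 1)).2) from Prod.ext (b1 p) rfl]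
        exact a2 _)

theorem not_int [Nontrivial P] (hP : Pm P) {G : Type} [Group G] (Φ : P × P →* G)
    (hΦ : Function.Injective Φ) (hr : Φ.range = commutator G) (t : G)
    (ht : ∀ p, t * Φ (p, 1) * t⁻¹ = Φ (1, p)) (H : Type) [Group H] (e : commutator H ≃* G) :
    False := by
  let Ψ : P × P →* H := ((commutator H).subtype.comp e.symm.toMonoidHom).comp Φ
  have hΨ : Function.Injective Ψ := (Subtype.val_injective.comp e.symm.injective).comp hΦ
  have hn : Ψ.range.Normal := by
    have : Ψ.range = (commutator (commutator H)).map (commutator H).subtype := by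
      rw [MonoidHom.range_comp, hr, ← Subgroup.map_map, commutator_def G, Subgroup.map_commutator,
        Subgroup.map_top_of_surjective _ e.symm.surjective]
      rfl
    rw [this]
    infer_instance
  let E := MonoidHom.ofInjective hΨ
  let c : H →* MulAut (P × P) := (MulAut.congr E.symm).toMonoidHom.comp (MulAut.conjNormal (H := Ψ.range))
  have hc : ∀ h x, Ψ (c h x) = h * Ψ x * h⁻¹ := by
    intro h x
    have : ∀ y : Ψ.range, Ψ (E.symm y) = y := fun y => by
      rw [← MonoidHom.ofInjective_apply hΨ]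
      simp [E]
    simp [c, this, E, MonoidHom.ofInjective_apply]
  have h1 : sgn hP (c (e.symm t)) = 1 :=
    Abelianization.commutator_subset_ker ((sgn hP).comp c) (e.symm t).2
  obtain ⟨p, hp⟩ := exists_ne (1 : P)
  have h2 : c (e.symm t) (p, 1) = (1, p) := by
    apply hΨ
    rw [hc]
    simp only [Ψ, MonoidHom.comp_apply, ← ht, map_mul, map_inv]
    rfl
  simp only [sgn, MonoidHom.mk'_apply] at h1
  rw [if_neg (fun h => hp (by simpa [h2] using h p))] at h1
  exact absurd h1 (by decide)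

/-- left multiplication on one of two copies -/
def lm : P →* Equiv.Perm (P × P) := MonoidHom.mk' (fun p => Equiv.mulLeft (p, 1)) fun a b => by
  ext x <;> simp [mul_assoc]

end

theorem int_two {G : Type} [Group G] (h : Nat.card G = 2) :
    ∃ (H : Type) (_ : Group H), Nonempty (commutator H ≃* G) := by
  refine ⟨DihedralGroup 4, inferInstance, ?_⟩
  have : commutator (DihedralGroup 4) = Subgroup.zpowers (DihedralGroup.r 2) := by
    apply le_antisymm
    · rw [commutator_def, Subgroup.commutator_le]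
      intro a _ b _
      have : ∀ a b : DihedralGroup 4, ⁅a, b⁆ = 1 ∨ ⁅a, b⁆ = DihedralGroup.r 2 := by decide
      rcases this a b with h | h <;> rw [h]
      exacts [Subgroup.one_mem _, Subgroup.mem_zpowers _]
    · rw [Subgroup.zpowers_le]
      have : (DihedralGroup.r 2 : DihedralGroup 4) = ⁅(DihedralGroup.r 1 : DihedralGroup 4), DihedralGroup.sr 0⁆ := by decide
      rw [this]
      exact Subgroup.commutator_mem_commutator trivial trivial
  have hc : Nat.card (commutator (DihedralGroup 4)) = 2 := by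
    rw [this, Nat.card_zpowers]
    exact orderOf_eq_prime (by decide) (by decide)
  exact ⟨mulEquivOfPrimeCardEq hc h⟩

def sh (j : ℕ) (l : List (ℕ × Bool)) : List (ℕ × Bool) := l.map fun x => (3 * x.1 + j, x.2)

def wr (N : ℕ) (R : List (List (ℕ × Bool))) : List (List (ℕ × Bool)) :=
  ((List.range 3).flatMap fun j => R.map (sh j)) ++ [[(3 * N, true), (3 * N, true)]] ++
    (List.range (3 * N)).flatMap fun x => (List.range (3 * N)).map fun y =>
      cw [(x, true)] [(3 * N, true), (y, true), (3 * N, true)]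

theorem wr_iff (N R) {M : Type} [Group M] (g : ℕ → M) : (∀ r ∈ wr N R, ev g r = 1) ↔
    (∀ j < 3, ∀ r ∈ R, ev (fun i => g (3 * i + j)) r = 1) ∧ g (3 * N) * g (3 * N) = 1 ∧
      ∀ x < 3 * N, ∀ y < 3 * N, Commute (g x) (g (3 * N) * g y * g (3 * N)) := by
  have : ∀ j r, ev g (sh j r) = ev (fun i => g (3 * i + j)) r := fun j r => ev_map g (fun i => 3 * i + j) r
  simp only [wr, List.mem_append, or_imp, forall_and, List.forall_mem_flatMap, List.forall_mem_map,
    List.mem_range, this, List.forall_mem_singleton, ev_cw, commutatorElement_eq_one_iff_commute,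
    ev_t, ev_nil, mul_one, and_assoc, mul_assoc]

theorem wr_lt {N R} (h : ∀ r ∈ R, Lt N r) : ∀ r ∈ wr N R, Lt (3 * N + 1) r := by
  simp only [wr, List.mem_append, or_imp, forall_and, List.forall_mem_flatMap, List.forall_mem_map,
    List.mem_range, List.forall_mem_singleton]
  refine ⟨⟨fun j hj r hr x hx => ?_, by simp⟩, fun x hx y hy => lt_cw (by simp; omega) (by simp; omega)⟩
  obtain ⟨y, hy, rfl⟩ := List.mem_map.1 hx
  have := h r hr y hy
  simp only
  omega

theorem collapse {N R} (hv : ∀ r ∈ R, Lt N r)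
    (h : ∀ (M : Type) [Group M] (g : ℕ → M), (∀ r ∈ R, ev g r = 1) → ∀ i < N, g i = 1) :
    Nat.card (PresentedGroup (rels (3 * N + 1) (wr N R))) = 2 := by
  set g := gen (3 * N + 1) (wr N R)
  obtain ⟨h1, h2, -⟩ := (wr_iff N R g).1 fun r hr => gen_rel hr (wr_lt hv r hr)
  obtain ⟨f, hf⟩ := ex_lift (n := 3 * N + 1) (R := wr N R) (fun i => if i = 3 * N then (-1 : ℤˣ) else 1)
    ((wr_iff N R _).2 ⟨fun j hj r hr => by
      rw [ev_congr (g' := fun _ => 1)]
      · simp [ev]
      · intro x hx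
        have := hv r hr x hx
        rw [if_neg (by omega)], by simp, fun _ _ _ _ => Commute.all _ _⟩)
  have ht : g (3 * N) ≠ 1 := by
    intro e
    have := hf (3 * N) (by omega)
    rw [show gen (3 * N + 1) (wr N R) (3 * N) = 1 from e] at this
    simp at this
  have : Subgroup.zpowers (g (3 * N)) = ⊤ := by
    apply gen_ind
    intro i hi
    by_cases e : i = 3 * N
    · rw [e]; exact Subgroup.mem_zpowers _
    · have := h _ _ (h1 (i % 3) (Nat.mod_lt _ (by norm_num))) (i / 3) (by omega)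
      rw [Nat.div_add_mod] at this
      change g i ∈ _
      rw [this]
      exact Subgroup.one_mem _
  rw [← Subgroup.card_top, ← this, Nat.card_zpowers]
  exact orderOf_eq_prime (by rw [pow_two, h2]) ht

theorem survive {N R} (hv : ∀ r ∈ R, Lt N r)
    (h : ∀ (M : Type) [Group M] (g : ℕ → M), (∀ r ∈ R, ev g r = 1) → (∀ a b : M, Commute a b) →
      ∀ i < N, g i = 1) [Nontrivial (PresentedGroup (rels N R))] (H : Type) [Group H]
    (e : commutator H ≃* PresentedGroup (rels (3 * N + 1) (wr N R))) : False := by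
  set g := gen (3 * N + 1) (wr N R)
  obtain ⟨h1, h2, h3⟩ := (wr_iff N R g).1 fun r hr => gen_rel hr (wr_lt hv r hr)
  set t := g (3 * N)
  have ti : t⁻¹ = t := inv_eq_of_mul_eq_one_right h2
  let K := PresentedGroup (rels N R)
  let P := CoprodI fun _ : Fin 3 => K
  have : Nontrivial P := (CoprodI.of_injective (M := fun _ : Fin 3 => K) 0).nontrivial
  choose f hf using fun j : Fin 3 => ex_lift (n := N) (R := R) _ (h1 j j.2)
  let j₁ : P →* PresentedGroup (rels (3 * N + 1) (wr N R)) := lift f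
  have ind : ∀ U : Subgroup P, (∀ (j : Fin 3), ∀ i < N, of (i := j) (gen N R i) ∈ U) → ∀ p, p ∈ U := by
    intro U hU p
    induction p using CoprodI.induction_on with
    | one => exact U.one_mem
    | mul _ _ a b => exact U.mul_mem a b
    | of j k =>
      have := gen_ind (U.comap (of (M := fun _ : Fin 3 => K) (i := j))) (hU j)
      exact (this ▸ Subgroup.mem_top k : k ∈ U.comap _)
  have j1g : ∀ (j : Fin 3), ∀ i < N, j₁ (of (i := j) (gen N R i)) = g (3 * i + j) := by
    intro j i hi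
    exact (lift_of (M := fun _ : Fin 3 => K) f _).trans (hf j i hi)
  let j₂ : P →* PresentedGroup (rels (3 * N + 1) (wr N R)) := (MulAut.conj t).toMonoidHom.comp j₁
  have j2 : ∀ q, j₂ q = t * j₁ q * t := fun q => by simp [j₂, ti]
  have cm : ∀ p q, Commute (j₁ p) (j₂ q) := by
    intro p q
    refine (Subgroup.mem_centralizer_singleton_iff.1 (ind ((Subgroup.centralizer {j₂ q}).comap j₁) ?_ p))
    intro a x hx
    rw [Subgroup.mem_comap, Subgroup.mem_centralizer_singleton_iff]
    refine (Subgroup.mem_centralizer_singleton_iff.1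
      (ind ((Subgroup.centralizer {j₁ (of (i := a) (gen N R x))}).comap j₂) ?_ q)).symm
    intro b y hy
    rw [Subgroup.mem_comap, Subgroup.mem_centralizer_singleton_iff, j2, j1g a x hx, j1g b y hy]
    exact (h3 _ (by omega) _ (by omega)).symm
  let Φ := j₁.noncommCoprod j₂ cm
  obtain ⟨ψ, hψ⟩ := ex_lift (n := 3 * N + 1) (R := wr N R)
    (fun i => if i = 3 * N then (Equiv.prodComm P P : Equiv.Perm (P × P)) else
      lm (of (i := (⟨i % 3, Nat.mod_lt _ (by norm_num)⟩ : Fin 3)) (gen N R (i / 3))))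
    ((wr_iff N R _).2 ⟨fun j hj r hr => by
      rw [ev_congr (g' := fun i => (lm.comp (of (M := fun _ : Fin 3 => K) (i := ⟨j, hj⟩))) (gen N R i)),
        ← map_ev, gen_rel hr (hv r hr), map_one]
      intro x hx
      have := hv r hr x hx
      have e1 : (3 * x.1 + j) % 3 = j := by omega
      have e2 : (3 * x.1 + j) / 3 = x.1 := by omega
      rw [if_neg (by omega)]
      simp [e1, e2], by simp; rfl, fun x hx y hy => by
      rw [if_pos rfl, if_neg (by omega), if_neg (by omega)]
      ext z <;> simp [lm]⟩)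
  have ψt : ψ t = (Equiv.prodComm P P : Equiv.Perm (P × P)) := by simpa using hψ (3 * N) (by omega)
  have ψ1 : ∀ p, ψ (j₁ p) = lm p := by
    intro p
    refine ind ((ψ.comp j₁).eqLocus lm) ?_ p
    intro j i hi
    change ψ (j₁ _) = _
    have e1 : (3 * i + j) % 3 = j := by omega
    have e2 : (3 * i + j) / 3 = i := by omega
    rw [j1g j i hi, hψ _ (by omega), if_neg (by omega)]
    simp [e1, e2]
  have hΦ : Function.Injective Φ := by
    rw [injective_iff_map_eq_one]
    rintro ⟨p, q⟩ hpq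
    have := congrArg (fun σ => ψ σ (1, 1)) hpq
    simpa [Φ, j2, ψ1, ψt, lm] using this
  have Φ1 : ∀ p, Φ (p, 1) = j₁ p := fun p => by simp [Φ]
  have Φ2 : ∀ p, Φ (1, p) = t * j₁ p * t := fun p => by simp [Φ, j2]
  have sw : ∀ x, t * Φ x * t = Φ x.swap := by
    rintro ⟨p, q⟩
    have : Φ (q, p) = j₂ p * j₁ q := by simp [Φ, (cm q p).eq]
    rw [Prod.swap_prod_mk, this]
    simp only [Φ, MonoidHom.noncommCoprod_apply, j2, mul_assoc, h2, mul_one]
  have cov : ∀ x, x ∈ Φ.range ∨ x * t ∈ Φ.range := by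
    let U : Subgroup (PresentedGroup (rels (3 * N + 1) (wr N R))) :=
      { carrier := {x | x ∈ Φ.range ∨ x * t ∈ Φ.range}
        one_mem' := Or.inl (Subgroup.one_mem _)
        mul_mem' := by
          have tt : ∀ y, t * (t * y) = y := fun y => by rw [← mul_assoc, h2, one_mul]
          rintro a b (⟨x, hx⟩ | ⟨x, hx⟩) (⟨y, hy⟩ | ⟨y, hy⟩)
          · exact Or.inl ⟨x * y, by rw [map_mul, hx, hy]⟩
          · exact Or.inr ⟨x * y, by rw [map_mul, hx, hy, mul_assoc]⟩
          · exact Or.inr ⟨x * y.swap, by rw [map_mul, ← sw, hx, hy]; simp only [mul_assoc, tt]⟩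
          · exact Or.inl ⟨x * y.swap, by rw [map_mul, ← sw, hx, hy]; simp only [mul_assoc, tt, h2, mul_one]⟩
        inv_mem' := by
          have tt : ∀ y, t * (t * y) = y := fun y => by rw [← mul_assoc, h2, one_mul]
          rintro a (⟨x, hx⟩ | ⟨x, hx⟩)
          · exact Or.inl ⟨x⁻¹, by rw [map_inv, hx]⟩
          · exact Or.inr ⟨x⁻¹.swap, by rw [← sw, map_inv, hx, mul_inv_rev, ti]; simp only [mul_assoc, tt]⟩ }
    have : U = ⊤ := gen_ind U fun i hi => by
      by_cases e : i = 3 * N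
      · rw [e]; exact Or.inr ⟨1, by rw [map_one]; exact h2.symm⟩
      · refine Or.inl ⟨(of (i := (⟨i % 3, Nat.mod_lt _ (by norm_num)⟩ : Fin 3)) (gen N R (i / 3)), 1), ?_⟩
        rw [Φ1, j1g _ _ (by omega), Nat.div_add_mod]
    intro x
    exact (this ▸ Subgroup.mem_top x : x ∈ U)
  refine not_int (pm_coprod (K := K)) Φ hΦ (le_antisymm ?_ ?_) t (fun p => by rw [Φ1, Φ2, ti]) H e
  · have c1 : ∀ p, j₁ p ∈ commutator _ := by
      intro p
      refine ind ((commutator _).comap j₁) ?_ p
      intro j i hi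
      rw [Subgroup.mem_comap, j1g j i hi, ← Abelianization.ker_of, MonoidHom.mem_ker]
      refine h _ (fun i => Abelianization.of (g (3 * i + j))) (fun r hr => ?_) Commute.all i hi
      rw [← map_ev, h1 j j.2 r hr, map_one]
    rintro _ ⟨⟨p, q⟩, rfl⟩
    exact Subgroup.mul_mem _ (c1 p) ((inferInstance : (commutator _).Normal).conj_mem _ (c1 q) t)
  · have tt : ∀ y, t * (t * y) = y := fun y => by rw [← mul_assoc, h2, one_mul]
    rw [commutator_def, Subgroup.commutator_le]
    intro a _ b _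
    have ha : ∃ x, a = Φ x ∨ a = Φ x * t := by
      rcases cov a with ⟨x, hx⟩ | ⟨x, hx⟩
      exacts [⟨x, Or.inl hx.symm⟩, ⟨x, Or.inr (by rw [hx, mul_assoc, h2, mul_one])⟩]
    have hb : ∃ x, b = Φ x ∨ b = Φ x * t := by
      rcases cov b with ⟨x, hx⟩ | ⟨x, hx⟩
      exacts [⟨x, Or.inl hx.symm⟩, ⟨x, Or.inr (by rw [hx, mul_assoc, h2, mul_one])⟩]
    obtain ⟨x, rfl | rfl⟩ := ha <;> obtain ⟨y, rfl | rfl⟩ := hb
    · exact ⟨⁅x, y⁆, map_commutatorElement ..⟩
    · refine ⟨x * y * (x.swap)⁻¹ * y⁻¹, ?_⟩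
      simp only [map_mul, ← sw, map_inv, commutatorElement_def, mul_inv_rev, ti, mul_assoc]
    · refine ⟨x * y.swap * x⁻¹ * y⁻¹, ?_⟩
      simp only [map_mul, ← sw, map_inv, commutatorElement_def, mul_inv_rev, ti, mul_assoc]
    · refine ⟨x * y.swap * (x.swap)⁻¹ * y⁻¹, ?_⟩
      simp only [map_mul, ← sw, map_inv, commutatorElement_def, mul_inv_rev, ti, mul_assoc, tt]

theorem main : ∃ (N : ℕ) (L : ℕ → List (List (ℕ × Bool))) (S : ℕ → Prop), Primrec L ∧
    ¬ ComputablePred S ∧ (∀ n, ∀ r ∈ L n, Lt N r) ∧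
    ∀ n, (S n ↔ ∃ (H : Type) (_ : Group H), Nonempty (commutator H ≃* PresentedGroup (rels N (L n)))) := by
  obtain ⟨N, L, S, hL, hS, hv, h1, h2⟩ := exists_ar
  refine ⟨3 * N + 1, fun n => wr N (L n), S, ?_, hS, fun n => wr_lt (hv n), fun n => ⟨fun h => ?_, ?_⟩⟩
  · unfold wr sh
    fun_prop
  · exact int_two (collapse (hv n) fun M _ g hg => h1 n M g hg (Or.inl h))
  · rintro ⟨H, _, ⟨e⟩⟩
    by_contra hn
    obtain ⟨M, _, g, hg, i, hi, hc⟩ := h2 n hn
    obtain ⟨f, hf⟩ := ex_lift (n := N) g hg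
    have : Nontrivial (PresentedGroup (rels N (L n))) := ⟨gen N (L n) i, 1, fun e => by
      have := hf i hi
      rw [e, map_one] at this
      exact one_ne_zero (hc 1 (by simp [← this]))⟩
    exact survive (hv n) (fun M _ g hg hc => h1 n M g hg (Or.inr hc)) H e

end Pool.Agent.H.MP_b13100_lc
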